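import Pool.Agent.Lib_helper57.PX.Mach

/-! # Nondeterministic polynomial time with oracle (MP_5c38ab_lc) -/

set_option autoImplicit false

namespace Pool.Agent.PX

/-- `L ∈ NP^O`: witnesses `y` of polynomial length, checked in polynomial time (with the input
`x` on stack `0` and the witness `y` on stack `1`). -/
def InNP (O L : Lang) : Prop :=
  ∃ (c : Cmd) (k : ℕ),
    (∀ x y : List Bool, y.length ≤ (x.length + 2) ^ k → Halts O c x y ((x.length + 2) ^ k)) ∧
    ∀ x : List Bool, L x = true ↔
      ∃ y : List Bool, y.length ≤ (x.length + 2) ^ k ∧ Accepts O c x y ((x.length + 2) ^ k)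

end Pool.Agent.PX
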