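import Pool.Agent.Lib_helper57.PX.Mach

/-! # Joins of oracles (MP_5c38ab_lc) -/

set_option autoImplicit false

namespace Pool.Agent.PX

/-- The join `O ⊕ B` of two oracles: `0w` asks `O` about `w`, `1w` asks `B` about `w`. -/
def join (O B : Lang) (x : List Bool) : Bool :=
  if x.head? = some false then O x.tail else if x.head? = some true then B x.tail else false

end Pool.Agent.PX
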