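import Pool.Agent.Lib_helper57.PX.InP
import Pool.Agent.Lib_helper57.PX.InNP
import Pool.Agent.Lib_helper57.PX.Join

/-! # The polynomial hierarchy with oracle (MP_5c38ab_lc) -/

set_option autoImplicit false

namespace Pool.Agent.PX

/-- The levels `Σ_k^P` of the polynomial hierarchy relative to `O`: `Σ_0^P = P`, and `Σ_{k+1}^P` is
`NP` with an additional oracle in `Σ_k^P`. -/
inductive InSig (O : Lang) : ℕ → Lang → Prop
  | zero (L : Lang) (h : InP O L) : InSig O 0 L
  | succ (k : ℕ) (B L : Lang) (h : InSig O k B) (h' : InNP (join O B) L) : InSig O (k + 1) L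

/-- The polynomial hierarchy is infinite relative to `O`. -/
def InfinitePH (O : Lang) : Prop := ∀ k, ∃ L, InSig O (k + 1) L ∧ ¬ InSig O k L

end Pool.Agent.PX
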