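import Pool.Agent.Lib_helper57.PX.QFalse

/-! # Q1 true, its consistency version false, relative to an oracle (MP_5c38ab_lc) -/

set_option autoImplicit false

namespace Pool.Agent.PX

/-- Q1 is true relative to `O`: base theories exist, and for every base theory `B` and every `S` in
the class there is `T` in the class such that the sentences `Σ^b_1RFN_T(n)` do not have `S`-proofs
of polynomial length. -/
def Q1True (O : Lang) : Prop :=
  (∃ B, BaseTheory O B) ∧ ∀ B, BaseTheory O B → ∀ (p : Cmd) (k : ℕ), InT O B p k →
    ∃ (q : Cmd) (m : ℕ), InT O B q m ∧ ¬ PolyBounded (Ax O p k) (RFN q m)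

/-- The consistency version is false relative to `O`: base theories exist, and for every base theory
`B` there is `S` in the class such that for every `T` in the class the sentences `Con_T(n)` have
`S`-proofs of polynomial length, computable from `1^n` in polynomial time. -/
def ConFalse (O : Lang) : Prop :=
  (∃ B, BaseTheory O B) ∧ ∀ B, BaseTheory O B → ∃ (p : Cmd) (k : ℕ), InT O B p k ∧
    ∀ (q : Cmd) (m : ℕ), InT O B q m → EasyProofs (Ax O p k) (Con q m)

end Pool.Agent.PX
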