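import Pool.Agent.Lib_helper57.PX.Arith

/-! # Q1 and its consistency version with exponential lower bounds (MP_5c38ab_lc) -/

set_option autoImplicit false

namespace Pool.Agent.PX

/-- Q1 and its consistency version are true relative to `O`, with exponential lower bounds: base
theories exist, and for every base theory `B` and every `S` in the class there is `T` in the class
such that neither the sentences `Σ^b_1RFN_T(n)` nor the sentences `Con_T(n)` have `S`-proofs of
polynomial length; for infinitely many `n` all their `S`-proofs have length greater than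
`2 ^ (n ^ (1/7) - 1)` (`n < d ^ 7` for the number `d` of binary digits of the length). -/
def BothTrueExp (O : Lang) : Prop :=
  (∃ B, BaseTheory O B) ∧ ∀ B, BaseTheory O B → ∀ (p : Cmd) (k : ℕ), InT O B p k →
    ∃ (q : Cmd) (m : ℕ), InT O B q m ∧
      ¬ PolyBounded (Ax O p k) (RFN q m) ∧ ¬ PolyBounded (Ax O p k) (Con q m) ∧
      ∀ n₀, ∃ n, n₀ ≤ n ∧ ∀ l, ProofOf (Ax O p k) (RFN q m n) l ∨ ProofOf (Ax O p k) (Con q m n) l →
        n < (Nat.size (pEnc l).length) ^ 7

end Pool.Agent.PX
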