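import Pool.Agent.Lib_helper57.PX.Mach

/-! # Functions computable in polynomial time with oracle (MP_5c38ab_lc) -/

set_option autoImplicit false

namespace Pool.Agent.PX

/-- `f ∈ FP^O`: the output is the content of stack `0`. -/
def InFP (O : Lang) (f : List Bool → List Bool) : Prop :=
  ∃ (c : Cmd) (k : ℕ), ∀ x : List Bool,
    Halts O c x [] ((x.length + 2) ^ k) ∧ (run O c x [] ((x.length + 2) ^ k)).st 0 = f x

end Pool.Agent.PX
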