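import Pool.Agent.Lib_helper57.PX.Arith
import Pool.Agent.Lib_helper57.PX.InFP

/-! # The negated form of Q1 relative to an oracle (MP_5c38ab_lc) -/

set_option autoImplicit false

namespace Pool.Agent.PX

/-- The sentences `Φ n` have proofs of polynomial length from the axioms `A`, even proofs that can
be computed from `1^n` in polynomial time (without oracle). -/
def EasyProofs (A : Fm → Prop) (Φ : ℕ → Fm) : Prop :=
  PolyBounded A Φ ∧ ∃ f : List Bool → List Bool, InFP (fun _ => false) f ∧
    ∀ n, ∃ l, ProofOf A (Φ n) l ∧ f (List.replicate n true) = pEnc l

/-- Q1 is false relative to `O` (the negated form): base theories exist, and for every base theory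
`B` there is a theory `S` in the class such that for every theory `T` in the class the sentences
`Σ^b_1RFN_T(n)` have `S`-proofs of polynomial length, which are even computable from `1^n` in
polynomial time.  (The class: consistent theories that contain `B`, with axioms decidable in
polynomial time with oracle `O`.) -/
def Q1False (O : Lang) : Prop :=
  (∃ B, BaseTheory O B) ∧ ∀ B, BaseTheory O B → ∃ (p : Cmd) (k : ℕ), InT O B p k ∧
    ∀ (q : Cmd) (m : ℕ), InT O B q m → EasyProofs (Ax O p k) (RFN q m)

end Pool.Agent.PX
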