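import Pool.Agent.Lib_helper57.PX.IsoA
import Pool.Agent.Lib_helper57.PX.QFalse
import Pool.Agent.Lib_helper57.PX.QCon
import Pool.Agent.Lib_helper57.PX.QExp
import Pool.Agent.Lib_helper57.PX.PH
import Pool.Agent.Lib_helper78.PLS.Defs

/-! # Comparison of the definitions: proofs, truth, theories (MP_5c38ab_lc) -/

set_option autoImplicit false

namespace Pool.Agent.PX

/-! ## The proof calculus -/

theorem logical_to {φ : Fm} (h : Logical φ) : RF.Logical (oF φ) := by
  induction h with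
  | k φ ψ => exact .k _ _
  | s φ ψ χ => exact .s _ _ _
  | c φ ψ => exact .c _ _
  | inst i φ a h =>
    change RF.Logical (.imp (.all i (oF φ)) (oF (φ.sb i a)))
    rw [← sbF_eq]
    exact .inst i _ _ ((ok_iff i a φ).2 h)
  | dist i φ ψ => exact .dist i _ _
  | vac i φ h => exact .vac i _ fun h' => h ((free_iff i φ).1 h')
  | refl t => exact .refl _
  | leib i φ s t h =>
    change RF.Logical (.imp (.eq (oT s) (oT t)) (.imp (oF (φ.sb i s)) (oF (φ.sb i t))))
    rw [← sbF_eq, ← sbF_eq]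
    exact .leib i _ _ _ ((atomic_iff φ).2 h)
  | gen i φ _ ih => exact .gen i _ ih

theorem logical_of {ψ : RF.Fm} (h : RF.Logical ψ) : Logical (nF ψ) := by
  induction h with
  | k φ ψ => exact .k _ _
  | s φ ψ χ => exact .s _ _ _
  | c φ ψ => exact .c _ _
  | inst i φ a h =>
    have h1 : nF (φ.sb i a) = (nF φ).sb i (nT a) := by
      apply oF_inj
      rw [← sbF_eq, oF_nF, oF_nF, oT_nT]
    change Logical (.imp (.all i (nF φ)) (nF (φ.sb i a)))
    rw [h1]
    refine .inst i _ _ ((ok_iff i _ _).1 ?_)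
    rwa [oF_nF, oT_nT]
  | dist i φ ψ => exact .dist i _ _
  | vac i φ h => exact .vac i _ fun h' => h (by rw [← oF_nF φ]; exact (free_iff i _).2 h')
  | refl t => exact .refl _
  | leib i φ s t h =>
    have h1 : ∀ a, nF (φ.sb i a) = (nF φ).sb i (nT a) := by
      intro a
      apply oF_inj
      rw [← sbF_eq, oF_nF, oF_nF, oT_nT]
    change Logical (.imp (.eq (nT s) (nT t)) (.imp (nF (φ.sb i s)) (nF (φ.sb i t))))
    rw [h1, h1]
    refine .leib i _ _ _ ((atomic_iff _).1 ?_)
    rwa [oF_nF]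
  | gen i φ _ ih => exact .gen i _ ih

theorem logical_iff (φ : Fm) : RF.Logical (oF φ) ↔ Logical φ :=
  ⟨fun h => by rw [← nF_oF φ]; exact logical_of h, logical_to⟩

theorem isProof_snoc (A : RF.Fm → Prop) (l : List RF.Fm) (φ : RF.Fm) :
    RF.IsProof A (l ++ [φ]) ↔ RF.IsProof A l ∧
      (RF.Logical φ ∨ A φ ∨ ∃ ψ, ψ ∈ l ∧ RF.Fm.imp ψ φ ∈ l) := by
  constructor
  · intro h
    constructor
    · intro i χ hi
      have hil : i < l.length := (List.getElem?_eq_some_iff.1 hi).1
      have h1 : (l ++ [φ])[i]? = some χ := by rw [List.getElem?_append_left hil]; exact hi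
      rcases h i χ h1 with h2 | h2 | ⟨j, k, ψ, hj, hk, h3, h4⟩
      · exact Or.inl h2
      · exact Or.inr (Or.inl h2)
      · refine Or.inr (Or.inr ⟨j, k, ψ, hj, hk, ?_, ?_⟩)
        · rwa [List.getElem?_append_left (by omega)] at h3
        · rwa [List.getElem?_append_left (by omega)] at h4
    · have h1 : (l ++ [φ])[l.length]? = some φ := by simp
      rcases h l.length φ h1 with h2 | h2 | ⟨j, k, ψ, hj, hk, h3, h4⟩
      · exact Or.inl h2
      · exact Or.inr (Or.inl h2)
      · refine Or.inr (Or.inr ⟨ψ, ?_, ?_⟩)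
        · rw [List.getElem?_append_left hj] at h3
          exact List.mem_of_getElem? h3
        · rw [List.getElem?_append_left hk] at h4
          exact List.mem_of_getElem? h4
  · rintro ⟨h, h'⟩ i χ hi
    by_cases hil : i < l.length
    · rw [List.getElem?_append_left hil] at hi
      rcases h i χ hi with h2 | h2 | ⟨j, k, ψ, hj, hk, h3, h4⟩
      · exact Or.inl h2
      · exact Or.inr (Or.inl h2)
      · refine Or.inr (Or.inr ⟨j, k, ψ, hj, hk, ?_, ?_⟩)
        · rwa [List.getElem?_append_left (by omega)]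
        · rwa [List.getElem?_append_left (by omega)]
    · have h1 : i = l.length := by
        have := (List.getElem?_eq_some_iff.1 hi).1
        simp at this
        omega
      subst h1
      have h2 : φ = χ := by simpa using hi
      subst h2
      rcases h' with h2 | h2 | ⟨ψ, h3, h4⟩
      · exact Or.inl h2
      · exact Or.inr (Or.inl h2)
      · obtain ⟨j, hj⟩ := List.getElem?_of_mem h3
        obtain ⟨k, hk⟩ := List.getElem?_of_mem h4
        have hj' := (List.getElem?_eq_some_iff.1 hj).1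
        have hk' := (List.getElem?_eq_some_iff.1 hk).1
        refine Or.inr (Or.inr ⟨j, k, ψ, hj', hk', ?_, ?_⟩)
        · rwa [List.getElem?_append_left hj']
        · rwa [List.getElem?_append_left hk']

theorem isProof_iff {A : Fm → Prop} {A' : RF.Fm → Prop} (hA : ∀ φ, A' (oF φ) ↔ A φ)
    (l : List Fm) : RF.IsProof A' (l.map oF) ↔ IsProof A l := by
  constructor
  · induction l using List.reverseRecOn with
    | nil => intro _; exact .nil
    | append_singleton l φ ih =>
      intro h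
      rw [List.map_append, List.map_singleton, isProof_snoc] at h
      rcases h with ⟨h1, h2 | h2 | ⟨ψ, h2, h3⟩⟩
      · exact .ax l φ (ih h1) (Or.inl ((logical_iff φ).1 h2))
      · exact .ax l φ (ih h1) (Or.inr ((hA φ).1 h2))
      · obtain ⟨ψ', hψ, rfl⟩ := List.mem_map.1 h2
        obtain ⟨χ, hχ, h4⟩ := List.mem_map.1 h3
        have h5 : χ = .imp ψ' φ := oF_inj h4
        subst h5
        exact .mp l φ ψ' (ih h1) hψ hχ
  · intro h
    induction h with
    | nil => intro i χ hi; simp at hi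
    | ax l φ _ h' ih =>
      rw [List.map_append, List.map_singleton, isProof_snoc]
      refine ⟨ih, ?_⟩
      rcases h' with h' | h'
      · exact Or.inl ((logical_iff φ).2 h')
      · exact Or.inr (Or.inl ((hA φ).2 h'))
    | mp l φ ψ _ h₁ h₂ ih =>
      rw [List.map_append, List.map_singleton, isProof_snoc]
      exact ⟨ih, Or.inr (Or.inr ⟨oF ψ, List.mem_map_of_mem h₁, List.mem_map_of_mem h₂⟩)⟩

/-- Proofs in the old and in the new form. -/
theorem proofOf_iff {A : Fm → Prop} {A' : RF.Fm → Prop} (hA : ∀ φ, A' (oF φ) ↔ A φ)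
    (φ : Fm) (P : List Bool → Prop) :
    (∃ l : List RF.Fm, RF.IsProof A' (l ++ [oF φ]) ∧ P (RF.pEnc (l ++ [oF φ]))) ↔
      ∃ l, ProofOf A φ l ∧ P (pEnc l) := by
  constructor
  · rintro ⟨l, h1, h2⟩
    obtain ⟨l', rfl⟩ : ∃ l' : List Fm, l'.map oF = l := by
      refine ⟨l.map nF, ?_⟩
      rw [List.map_map]
      conv_rhs => rw [← List.map_id l]
      apply List.map_congr_left
      intro χ _
      exact oF_nF χ
    have h3 : l'.map oF ++ [oF φ] = (l' ++ [φ]).map oF := by simp
    rw [h3] at h1 h2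
    rw [pEnc_eq] at h2
    exact ⟨l' ++ [φ], ⟨(isProof_iff hA _).1 h1, by simp⟩, h2⟩
  · rintro ⟨l, ⟨h1, h2⟩, h3⟩
    obtain ⟨l', rfl⟩ : ∃ l', l = l' ++ [φ] := by
      refine ⟨l.dropLast, ?_⟩
      exact (List.dropLast_append_getLast? φ (by rw [h2]; rfl)).symm
    refine ⟨l'.map oF, ?_, ?_⟩
    · have h4 : l'.map oF ++ [oF φ] = (l' ++ [φ]).map oF := by simp
      rw [h4]
      exact (isProof_iff hA _).2 h1
    · have h4 : l'.map oF ++ [oF φ] = (l' ++ [φ]).map oF := by simp
      rw [h4, pEnc_eq]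
      exact h3

theorem provable_iff {A : Fm → Prop} {A' : RF.Fm → Prop} (hA : ∀ φ, A' (oF φ) ↔ A φ) (φ : Fm) :
    RF.Provable A' (oF φ) ↔ ∃ l, ProofOf A φ l := by
  have := proofOf_iff hA φ (fun _ => True)
  simpa [RF.Provable] using this

/-! ## `S^1_2` -/

theorem sb0_iff (φ : Fm) : RF.Sb0 (oF φ) ↔ Sb0 φ := by
  constructor
  · suffices h : ∀ ψ, RF.Sb0 ψ → Sb0 (nF ψ) by
      intro h'
      rw [← nF_oF φ]
      exact h _ h'
    intro ψ h
    induction h with
    | atom φ h => exact .atom _ ((atomic_iff _).1 (by rwa [oF_nF]))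
    | neg φ _ ih => exact .neg _ ih
    | imp φ ψ _ _ ih ih' => exact .imp _ _ ih ih'
    | all i t φ ht _ ih =>
      exact .all i (nT t) _ (fun h => ht (by rw [← oT_nT t]; exact (has_iff i _).2 h)) ih
  · intro h
    induction h with
    | atom φ h => exact .atom _ ((atomic_iff _).2 h)
    | neg φ _ ih => exact .neg _ ih
    | imp φ ψ _ _ ih ih' => exact .imp _ _ ih ih'
    | all i t φ ht _ ih => exact .all i (oT t) _ (fun h => ht ((has_iff i _).1 h)) ih

theorem sb1_iff (b : Bool) (φ : Fm) : RF.Sb1 b (oF φ) ↔ Sb1 b φ := by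
  constructor
  · suffices h : ∀ b ψ, RF.Sb1 b ψ → Sb1 b (nF ψ) by
      intro h'
      rw [← nF_oF φ]
      exact h _ _ h'
    intro b ψ h
    induction h with
    | base b φ h => exact .base b _ ((sb0_iff _).1 (by rwa [oF_nF]))
    | neg b φ _ ih => exact .neg b _ ih
    | imp b φ ψ _ _ ih ih' => exact .imp b _ _ ih ih'
    | sharp b i t φ ht _ ih =>
      exact .sharp b i (nT t) _ (fun h => ht (by rw [← oT_nT t]; exact (has_iff i _).2 h)) ih
    | bdd i t φ ht _ ih =>
      exact .bdd i (nT t) _ (fun h => ht (by rw [← oT_nT t]; exact (has_iff i _).2 h)) ih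
  · intro h
    induction h with
    | base b φ h => exact .base b _ ((sb0_iff _).2 h)
    | neg b φ _ ih => exact .neg b _ ih
    | imp b φ ψ _ _ ih ih' => exact .imp b _ _ ih ih'
    | sharp b i t φ ht _ ih => exact .sharp b i (oT t) _ (fun h => ht ((has_iff i _).1 h)) ih
    | bdd i t φ ht _ ih => exact .bdd i (oT t) _ (fun h => ht ((has_iff i _).1 h)) ih

theorem pind_eq (i : ℕ) (φ : Fm) : oF (pind i φ) = RF.pind i (oF φ) := by
  change RF.Fm.imp (oF (φ.sb i .zero)) (.imp (.all i (.imp (oF (φ.sb i (.half (.var i)))) (oF φ)))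
    (.all i (oF φ))) = _
  rw [← sbF_eq, ← sbF_eq]
  rfl

theorem basic_eq : basicAxioms.map oF = RF.basicAxioms := rfl

theorem s12_iff (σ : Fm) : RF.S12 (oF σ) ↔ S12 σ ∧ σ.Closed := by
  constructor
  · rintro ⟨h, φ, h1, h2⟩
    refine ⟨?_, (closed_iff σ).1 h⟩
    have h3 : ∀ ψ, RF.Gen φ ψ → S12 (nF ψ) := by
      intro ψ h4
      induction h4 with
      | refl =>
        rcases h2 with h2 | ⟨i, ψ, h2, rfl⟩
        · rw [← basic_eq] at h2
          obtain ⟨χ, h5, rfl⟩ := List.mem_map.1 h2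
          rw [nF_oF]
          exact .basic χ h5
        · have h5 : nF (RF.pind i ψ) = pind i (nF ψ) := by
            apply oF_inj
            rw [pind_eq, oF_nF, oF_nF]
          rw [h5]
          exact .pind i _ ((sb1_iff true _).1 (by rwa [oF_nF]))
      | all i ψ _ ih => exact .all i _ ih
    rw [← nF_oF σ]
    exact h3 _ h1
  · rintro ⟨h, h'⟩
    refine ⟨(closed_iff σ).2 h', ?_⟩
    clear h'
    induction h with
    | basic φ h =>
      exact ⟨oF φ, .refl, Or.inl (by rw [← basic_eq]; exact List.mem_map_of_mem h)⟩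
    | pind i φ h =>
      exact ⟨oF (pind i φ), .refl, Or.inr ⟨i, oF φ, (sb1_iff true φ).2 h, pind_eq i φ⟩⟩
    | all i φ _ ih =>
      obtain ⟨ψ, h1, h2⟩ := ih
      exact ⟨ψ, .all i _ h1, h2⟩

/-! ## Truth -/

theorem gmu_eq (e x z : ℕ) : RF.gmu e x z = gmu e x z := by
  unfold RF.gmu gmu
  rw [← val_eq, ← encF_eq, mu_eq, num_eq, num_eq, num_eq]

theorem ev_eq (v : ℕ → ℕ) (t : Tm) : (oT t).ev v = t.ev v := by
  induction t with
  | var j => rfl
  | zero => rfl
  | succ t ih => exact congrArg (· + 1) ih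
  | half t ih => exact congrArg (· / 2) ih
  | len t ih => exact congrArg Nat.size ih
  | add s t ih ih' => exact congrArg₂ (· + ·) ih ih'
  | mul s t ih ih' => exact congrArg₂ (· * ·) ih ih'
  | smash s t ih ih' => exact congrArg₂ (fun a b => 2 ^ (Nat.size a * Nat.size b)) ih ih'
  | sbn r s t ih ih' ih'' =>
    change RF.gmu ((oT r).ev v) ((oT s).ev v) ((oT t).ev v) = gmu (r.ev v) (s.ev v) (t.ev v)
    rw [ih, ih', ih'', gmu_eq]

theorem trRel_iff (O : Lang) (e x w z : ℕ) : RF.TrRel O e x w z ↔ TrRel O e x w z := by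
  unfold RF.TrRel TrRel
  rw [exC]
  simp only [encC_eq, accepts_iff, val_eq]

theorem prfRel_iff (O : Lang) (p z u v : ℕ) : RF.PrfRel O p z u v ↔ PrfRel O p z u v := by
  unfold RF.PrfRel PrfRel
  rw [exC]
  apply exists_congr
  intro c
  have hA : ∀ φ : Fm, CK.Accepts O (oC c) (oF φ).enc [] (Nat.size z) ↔
      Accepts O c φ.enc [] (Nat.size z) := by
    intro φ
    rw [encF_eq, accepts_iff]
  constructor
  · rintro ⟨l, φ, h1, h2, h3, h4⟩
    obtain ⟨φ, rfl⟩ : ∃ φ', oF φ' = φ := ⟨nF φ, oF_nF φ⟩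
    obtain ⟨l', h5, h6⟩ := (proofOf_iff
      (A' := fun σ => CK.Accepts O (oC c) σ.enc [] (Nat.size z)) hA φ (fun x => RF.val x = u)).1 ⟨l, h4, h2⟩
    rw [encC_eq, val_eq] at h1
    rw [encF_eq, val_eq] at h3
    rw [val_eq] at h6
    exact ⟨l', φ, h1, h6, h3, h5⟩
  · rintro ⟨l, φ, h1, h2, h3, h4⟩
    obtain ⟨l', h5, h6⟩ := (proofOf_iff
      (A' := fun σ => CK.Accepts O (oC c) σ.enc [] (Nat.size z)) hA φ (fun x => RF.val x = u)).2
      ⟨l, h4, by rw [val_eq]; exact h2⟩
    refine ⟨l', oF φ, ?_, h6, ?_, h5⟩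
    · rw [encC_eq, val_eq]; exact h1
    · rw [encF_eq, val_eq]; exact h3

theorem holds_iff (O : Lang) (φ : Fm) (v : ℕ → ℕ) : (oF φ).Holds O v ↔ φ.Holds O v := by
  induction φ generalizing v with
  | eq s t => simp only [oF, RF.Fm.Holds, Fm.Holds, ev_eq]
  | le s t => simp only [oF, RF.Fm.Holds, Fm.Holds, ev_eq]
  | orc t => simp only [oF, RF.Fm.Holds, Fm.Holds, ev_eq, val_eq]
  | tr e x w z => simp only [oF, RF.Fm.Holds, Fm.Holds, ev_eq, trRel_iff]
  | prf e x w z => simp only [oF, RF.Fm.Holds, Fm.Holds, ev_eq, prfRel_iff]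
  | neg φ ih => exact not_congr (ih v)
  | imp φ ψ ih ih' => exact imp_congr (ih v) (ih' v)
  | all j φ ih => exact forall_congr' fun a => ih _

theorem true_iff' (O : Lang) (φ : Fm) : (oF φ).True O ↔ ∀ v, φ.Holds O v :=
  forall_congr' fun v => holds_iff O φ v

/-! ## Theories -/

theorem ax_iff (O : Lang) (p : Cmd) (k : ℕ) (σ : Fm) : RF.Ax O (oC p, k) (oF σ) ↔ Ax O p k σ := by
  unfold RF.Ax Ax
  rw [encF_eq, accepts_iff]

theorem exTh {P : RF.Th → Prop} : (∃ T, P T) ↔ ∃ (p : Cmd) (k : ℕ), P (oC p, k) :=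
  ⟨fun ⟨⟨c, k⟩, h⟩ => ⟨nC c, k, by rwa [oC_nC]⟩, fun ⟨p, k, h⟩ => ⟨_, h⟩⟩

theorem allTh {P : RF.Th → Prop} : (∀ T, P T) ↔ ∀ (p : Cmd) (k : ℕ), P (oC p, k) :=
  ⟨fun h p k => h _, fun h ⟨c, k⟩ => by rw [← oC_nC c]; exact h _ _⟩

theorem base_iff (O : Lang) (B : RF.Fm → Prop) :
    PLS.BaseTheory O B ↔ BaseTheory O (fun σ => B (oF σ)) := by
  have hB : ∀ φ, B (oF φ) ↔ (fun σ => B (oF σ)) φ := fun _ => Iff.rfl
  constructor
  · rintro ⟨⟨⟨h1, h2, h3, h4, h5⟩, h6, h7, h8, h9⟩, h10⟩
    refine ⟨?_, ?_, ?_, ?_, ?_, ?_, ?_, ?_, ?_, ?_⟩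
    · exact fun σ hσ => (closed_iff σ).1 (h1 _ hσ)
    · exact fun σ hσ => (true_iff' O σ).1 (h2 _ hσ)
    · rw [exTh] at h3
      obtain ⟨p, k, h3, h3'⟩ := h3
      exact ⟨p, k, fun x => (halts_iff _ _ _ _ _).1 (h3 x),
        fun σ => (ax_iff O p k σ).symm.trans (h3' _)⟩
    · exact fun σ hσ hσ' => h10 _ ((s12_iff σ).2 ⟨hσ, hσ'⟩)
    · intro a b hab
      change B (.le (oT (num a)) (oT (num b)))
      rw [num_eq, num_eq]
      exact h7 a b hab
    · intro x hx
      change B (.orc (oT (num (val x))))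
      rw [num_eq, ← val_eq]
      exact h8 x hx
    · intro x hx
      change B (.neg (.orc (oT (num (val x)))))
      rw [num_eq, ← val_eq]
      exact h9 x hx
    · intro e x z h
      refine (provable_iff hB _).1 ?_
      have h' := h4 e x z
      rw [← num_eq, ← num_eq, ← num_eq, ← mu_eq, true_iff'] at h'
      exact h' h
    · intro p k n h
      refine (provable_iff hB _).1 ?_
      have h' := h5 (oC p, k) n
      rw [← rfn_eq, true_iff'] at h'
      exact h' h
    · intro p k n h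
      refine (provable_iff hB _).1 ?_
      have h' := h6 (oC p, k) n
      rw [← con_eq, true_iff'] at h'
      exact h' h
  · intro h
    refine ⟨⟨⟨?_, ?_, ?_, ?_, ?_⟩, ?_, ?_, ?_, ?_⟩, ?_⟩
    · rw [allF]
      exact fun σ hσ => (closed_iff σ).2 (h.closed σ hσ)
    · rw [allF]
      exact fun σ hσ => (true_iff' O σ).2 (h.isTrue σ hσ)
    · rw [exTh]
      obtain ⟨p, k, h3, h3'⟩ := h.dec
      refine ⟨p, k, fun x => (halts_iff _ _ _ _ _).2 (h3 x), ?_⟩
      rw [allF]
      exact fun σ => (ax_iff O p k σ).trans (h3' _)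
    · intro e x z h'
      rw [← num_eq, ← num_eq, ← num_eq, ← mu_eq, true_iff'] at h'
      rw [← num_eq, ← num_eq, ← num_eq, ← mu_eq]
      exact (provable_iff hB (.neg _)).2 (h.refMu e x z h')
    · rw [allTh]
      intro p k n h'
      rw [← rfn_eq, true_iff'] at h'
      rw [← rfn_eq]
      exact (provable_iff hB (.neg _)).2 (h.refRFN p k n h')
    · rw [allTh]
      intro p k n h'
      rw [← con_eq, true_iff'] at h'
      rw [← con_eq]
      exact (provable_iff hB (.neg _)).2 (h.refCon p k n h')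
    · intro a b hab
      have := h.leD a b hab
      change B (.le (oT (num a)) (oT (num b))) at this
      rwa [num_eq, num_eq] at this
    · intro x hx
      have := h.orcD x hx
      change B (.orc (oT (num (val x)))) at this
      rwa [num_eq, ← val_eq] at this
    · intro x hx
      have := h.orcN x hx
      change B (.neg (.orc (oT (num (val x))))) at this
      rwa [num_eq, ← val_eq] at this
    · rw [allF]
      exact fun σ hσ => h.s12 σ ((s12_iff σ).1 hσ).1 ((s12_iff σ).1 hσ).2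

/-- The old set of formulas that belongs to a set of new formulas. -/
def oB (B : Fm → Prop) (φ : RF.Fm) : Prop := B (nF φ)

theorem oB_iff (B : Fm → Prop) (φ : Fm) : oB B (oF φ) ↔ B φ := by
  unfold oB
  rw [nF_oF]

theorem base_oB (O : Lang) (B : Fm → Prop) : PLS.BaseTheory O (oB B) ↔ BaseTheory O B := by
  rw [base_iff]
  have h : (fun σ => oB B (oF σ)) = B := funext fun σ => propext (oB_iff B σ)
  rw [h]

theorem exB {P : (RF.Fm → Prop) → Prop} : (∃ B, P B) ↔ ∃ B, P (oB B) := by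
  constructor
  · rintro ⟨B, h⟩
    refine ⟨fun φ => B (oF φ), ?_⟩
    have h' : oB (fun φ => B (oF φ)) = B := funext fun φ => by simp only [oB, oF_nF]
    rwa [h']
  · rintro ⟨B, h⟩
    exact ⟨_, h⟩

theorem allB {P : (RF.Fm → Prop) → Prop} : (∀ B, P B) ↔ ∀ B, P (oB B) := by
  constructor
  · exact fun h B => h _
  · intro h B
    have h' : oB (fun φ => B (oF φ)) = B := funext fun φ => by simp only [oB, oF_nF]
    rw [← h']
    exact h _

theorem inT_iff (O : Lang) (B : Fm → Prop) (p : Cmd) (k : ℕ) :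
    RF.InT O (oB B) (oC p, k) ↔ InT O B p k := by
  have hA : ∀ φ, RF.Ax O (oC p, k) (oF φ) ↔ Ax O p k φ := ax_iff O p k
  constructor
  · rintro ⟨h1, h2, h3, h4⟩
    refine ⟨fun x => (halts_iff _ _ _ _ _).1 (h1 x), fun σ hσ => (hA σ).1 (h2 _ ((oB_iff B σ).2 hσ)),
      fun σ hσ => (closed_iff σ).1 (h3 _ ((hA σ).2 hσ)), fun l hl => h4 ?_⟩
    rw [← falsum_eq]
    exact (provable_iff hA falsum).2 ⟨l, hl⟩
  · rintro ⟨h1, h2, h3, h4⟩
    refine ⟨fun x => (halts_iff _ _ _ _ _).2 (h1 x), ?_, ?_, ?_⟩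
    · rw [allF]
      exact fun σ hσ => (hA σ).2 (h2 σ ((oB_iff B σ).1 hσ))
    · rw [allF]
      exact fun σ hσ => (closed_iff σ).2 (h3 σ ((hA σ).1 hσ))
    · rw [← falsum_eq, provable_iff hA]
      rintro ⟨l, hl⟩
      exact h4 l hl

theorem polyBounded_iff (O : Lang) (p : Cmd) (k : ℕ) (Φ : ℕ → Fm) (Ψ : ℕ → RF.Fm)
    (h : ∀ n, oF (Φ n) = Ψ n) :
    RF.PolyBounded O (oC p, k) Ψ ↔ PolyBounded (Ax O p k) Φ := by
  obtain rfl : (fun n => oF (Φ n)) = Ψ := funext h
  unfold RF.PolyBounded PolyBounded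
  refine exists_congr fun c => forall_congr' fun n => ?_
  exact proofOf_iff (ax_iff O p k) (Φ n) (fun x => x.length ≤ n ^ c + c)

theorem easy_iff (O : Lang) (p : Cmd) (k : ℕ) (Φ : ℕ → Fm) (Ψ : ℕ → RF.Fm)
    (h : ∀ n, oF (Φ n) = Ψ n) :
    ADV.EasyProofs O (oC p, k) Ψ ↔ EasyProofs (Ax O p k) Φ := by
  unfold ADV.EasyProofs EasyProofs
  rw [polyBounded_iff O p k Φ Ψ h]
  obtain rfl : (fun n => oF (Φ n)) = Ψ := funext h
  refine and_congr Iff.rfl (exists_congr fun f => and_congr (inFP_iff _ f) (forall_congr' fun n => ?_))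
  exact proofOf_iff (ax_iff O p k) (Φ n) (fun x => f (List.replicate n true) = x)

theorem q1False_iff (O : Lang) : PLS.Q1False O ↔ Q1False O := by
  unfold PLS.Q1False Q1False
  rw [exB, allB]
  simp only [base_oB]
  refine and_congr Iff.rfl (forall_congr' fun B => imp_congr Iff.rfl ?_)
  rw [exTh]
  refine exists_congr fun p => exists_congr fun k => and_congr (inT_iff O B p k) ?_
  rw [allTh]
  exact forall_congr' fun q => forall_congr' fun m => imp_congr (inT_iff O B q m)
    (easy_iff O p k _ _ (rfn_eq q m))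

theorem conFalse_iff (O : Lang) : PLS.ConFalse O ↔ ConFalse O := by
  unfold PLS.ConFalse ConFalse
  rw [exB, allB]
  simp only [base_oB]
  refine and_congr Iff.rfl (forall_congr' fun B => imp_congr Iff.rfl ?_)
  rw [exTh]
  refine exists_congr fun p => exists_congr fun k => and_congr (inT_iff O B p k) ?_
  rw [allTh]
  exact forall_congr' fun q => forall_congr' fun m => imp_congr (inT_iff O B q m)
    (easy_iff O p k _ _ (con_eq q m))

theorem q1True_iff (O : Lang) : PLS.Q1True O ↔ Q1True O := by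
  unfold PLS.Q1True Q1True
  rw [exB, allB]
  simp only [base_oB]
  refine and_congr Iff.rfl (forall_congr' fun B => imp_congr Iff.rfl ?_)
  rw [allTh]
  refine forall_congr' fun p => forall_congr' fun k => imp_congr (inT_iff O B p k) ?_
  rw [exTh]
  exact exists_congr fun q => exists_congr fun m => and_congr (inT_iff O B q m)
    (not_congr (polyBounded_iff O p k _ _ (rfn_eq q m)))

/-- Lower bounds for the lengths of all proofs. -/
theorem allProofs_iff {A : Fm → Prop} {A' : RF.Fm → Prop} (hA : ∀ φ, A' (oF φ) ↔ A φ)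
    (φ : Fm) (P : List Bool → Prop) :
    (∀ l : List RF.Fm, RF.IsProof A' (l ++ [oF φ]) → P (RF.pEnc (l ++ [oF φ]))) ↔
      ∀ l, ProofOf A φ l → P (pEnc l) := by
  have h := not_congr (proofOf_iff hA φ (fun x => ¬ P x))
  simpa only [not_exists, not_and, not_not] using h

theorem bothTrueExp_iff (O : Lang) : PLS.BothTrueExp O ↔ BothTrueExp O := by
  unfold PLS.BothTrueExp BothTrueExp
  rw [exB, allB]
  simp only [base_oB]
  refine and_congr Iff.rfl (forall_congr' fun B => imp_congr Iff.rfl ?_)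
  rw [allTh]
  refine forall_congr' fun p => forall_congr' fun k => imp_congr (inT_iff O B p k) ?_
  rw [exTh]
  refine exists_congr fun q => exists_congr fun m => and_congr (inT_iff O B q m)
    (and_congr (not_congr (polyBounded_iff O p k _ _ (rfn_eq q m)))
      (and_congr (not_congr (polyBounded_iff O p k _ _ (con_eq q m)))
        (forall_congr' fun n₀ => exists_congr fun n => and_congr Iff.rfl ?_)))
  rw [← rfn_eq, ← con_eq]
  have h1 := allProofs_iff (ax_iff O p k) (RFN q m n) (fun x => n < (Nat.size x.length) ^ 7)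
  have h2 := allProofs_iff (ax_iff O p k) (Con q m n) (fun x => n < (Nat.size x.length) ^ 7)
  rw [forall_and]
  refine (and_congr h1 h2).trans ?_
  constructor
  · rintro ⟨h3, h4⟩ l (h5 | h5)
    · exact h3 l h5
    · exact h4 l h5
  · exact fun h3 => ⟨fun l h5 => h3 l (Or.inl h5), fun l h5 => h3 l (Or.inr h5)⟩

theorem inSig_iff (O : Lang) (k : ℕ) (L : Lang) : PHS.InSig O k L ↔ InSig O k L := by
  induction k generalizing L with
  | zero =>
    constructor
    · exact fun h => .zero L ((inP_iff O L).1 h)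
    · intro h
      cases h with
      | zero _ h => exact (inP_iff O L).2 h
  | succ k ih =>
    constructor
    · rintro ⟨B, hB, hL⟩
      refine .succ k B L ((ih B).1 hB) ?_
      rw [← join_eq]
      exact (inNP_iff _ L).1 hL
    · intro h
      cases h with
      | succ _ B _ hB hL =>
        refine ⟨B, (ih B).2 hB, ?_⟩
        rw [join_eq]
        exact (inNP_iff _ L).2 hL

theorem infinitePH_iff (O : Lang) : PLS.InfinitePH O ↔ InfinitePH O := by
  unfold PLS.InfinitePH InfinitePH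
  simp only [inSig_iff]

end Pool.Agent.PX
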