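import Pool.Agent.Lib_helper57.PX.Mach

/-! # Oracles that contain their own multilinear extensions (MP_5c38ab_lc) -/

set_option autoImplicit false

namespace Pool.Agent.PX

/-- The oracle `O` contains its own multilinear extensions over the fields `K k` of characteristic
two with the bases `b k` over `F_2`: `0111^l01^k01^i0c`, where `c` is the list of the coordinates of
a point `y` of `(K k)^l`, asks for the coordinate `i` of the value at `y` of the multilinear
extension of the restriction of `O` to `{0,1}^l`. -/
def SelfAffine (K : ℕ → Type) [∀ k, Field (K k)] [∀ k, Algebra (ZMod 2) (K k)] (d : ℕ → ℕ)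
    (b : ∀ k, Module.Basis (Fin (d k)) (ZMod 2) (K k)) (O : Lang) : Prop :=
  ∀ (l k : ℕ) (y : Fin l → K k) (i : Fin (d k)),
    O ([false, true, true] ++ List.replicate l true ++ [false] ++ List.replicate k true ++ [false] ++
      List.replicate i true ++ [false] ++
      (List.ofFn fun j => List.ofFn fun a => decide ((b k).repr (y j) a = 1)).flatten) = true ↔
    (b k).repr (∑ s : Fin l → Bool, (if O (List.ofFn s) = true then 1 else 0) *
      ∏ j, if s j = true then y j else 1 - y j) i = 1

end Pool.Agent.PX
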