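import Pool.Agent.Lib_helper57.PX.Mach

/-! # Sparse oracles (MP_5c38ab_lc) -/

set_option autoImplicit false

namespace Pool.Agent.PX

/-- `W` has at most `α n` elements of length at most `n`, for all `n`. -/
def Few (α : ℕ → ℕ) (W : Lang) : Prop :=
  ∀ n, {x : List Bool | x.length ≤ n ∧ W x = true}.ncard ≤ α n

end Pool.Agent.PX
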