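import Pool.Agent.Lib_helper57.PX.InFP

/-! # Trapdoor permutations with oracle (MP_5c38ab_lc) -/

set_option autoImplicit false

namespace Pool.Agent.PX

/-- `G`, `F`, `K` are a family of trapdoor permutations relative to the oracle `O`: they are
computable in polynomial time with oracle `O`; for every `n` the map `G` from trapdoors to public
keys is a bijection of `{0,1}^n`; for every public key `pk` in `{0,1}^n` the map `x ↦ F (pk x)` is
a bijection of `{0,1}^n`; for `pk = G td` its inverse is `y ↦ K (td y)`. -/
structure TrapdoorPermutations (O : Lang) (G F K : List Bool → List Bool) : Prop where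
  inFP_G : InFP O G
  inFP_F : InFP O F
  inFP_K : InFP O K
  bij_G : ∀ n : ℕ, Set.BijOn G {z | z.length = n} {z | z.length = n}
  bij_F : ∀ pk : List Bool, Set.BijOn (fun x => F (pk ++ x)) {x | x.length = pk.length}
    {x | x.length = pk.length}
  inv : ∀ td x : List Bool, x.length = td.length → K (td ++ F (G td ++ x)) = x

/-- Security of `G`, `F` against nonuniform adversaries of size `T`: let `c` be a program, `n` large,
`w` an advice string of length at most `T n`, `t ≤ T n`.  For fewer than `4 ^ n / T n` of the `4 ^ n`
pairs `(td, x)` in `{0,1}^n × {0,1}^n` the output of `c` with oracle `O` on the input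
`G(td) F(G(td) x)` and the advice `w` after `t` steps is `x`. -/
def Secure (O : Lang) (G F : List Bool → List Bool) (T : ℕ → ℕ) : Prop :=
  ∀ c : Cmd, ∃ n₀ : ℕ, ∀ n ≥ n₀, ∀ w : List Bool, w.length ≤ T n → ∀ t ≤ T n,
    T n * Set.ncard {p : List Bool × List Bool | p.1.length = n ∧ p.2.length = n ∧
      (run O c (G p.1 ++ F (G p.1 ++ p.2)) w t).st 0 = p.2} < 4 ^ n

end Pool.Agent.PX
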