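import Pool.Agent.Lib_helper57.PX.IsoB
import Pool.Agent.Lib_helper57.PX.TDP
import Pool.Agent.Lib_helper57.PX.Few
import Pool.Agent.Lib_helper57.PX.Aff
import Pool.Agent.Lib_helper64.TD.Notions
import Pool.Agent.Lib_helper78.FS.True
import Pool.Agent.Lib_helper78.PLS.AffDefs

/-! # Comparison of the definitions: trapdoor permutations, affine oracles (MP_5c38ab_lc) -/

set_option autoImplicit false

namespace Pool.Agent.PX

theorem tdp_iff (O : Lang) (G F K : List Bool → List Bool) :
    TD.TrapdoorPermutations O G F K ↔ TrapdoorPermutations O G F K := by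
  constructor
  · rintro ⟨h1, h2, h3, h4, h5, h6⟩
    exact ⟨(inFP_iff _ _).1 h1, (inFP_iff _ _).1 h2, (inFP_iff _ _).1 h3, h4, h5, h6⟩
  · rintro ⟨h1, h2, h3, h4, h5, h6⟩
    exact ⟨(inFP_iff _ _).2 h1, (inFP_iff _ _).2 h2, (inFP_iff _ _).2 h3, h4, h5, h6⟩

theorem secure_iff (O : Lang) (G F : List Bool → List Bool) (T : ℕ → ℕ) :
    TD.Secure O G F T ↔ Secure O G F T := by
  unfold TD.Secure Secure
  rw [allC]
  refine forall_congr' fun c => ?_
  rw [Filter.eventually_atTop]
  simp only [run_eq, oCf]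
  rfl

theorem few_iff (α : ℕ → ℕ) (W : Lang) : FS.Few α W ↔ Few α W := Iff.rfl

/-- The family of fields as a structure. -/
def oPhi (K : ℕ → Type) [h : ∀ k, Field (K k)] [h' : ∀ k, Algebra (ZMod 2) (K k)] (d : ℕ → ℕ)
    (b : ∀ k, Module.Basis (Fin (d k)) (ZMod 2) (K k)) : AEC.Fields := ⟨K, h, h', d, b⟩

theorem selfAffine_iff (K : ℕ → Type) [∀ k, Field (K k)] [∀ k, Algebra (ZMod 2) (K k)] (d : ℕ → ℕ)
    (b : ∀ k, Module.Basis (Fin (d k)) (ZMod 2) (K k)) (O : Lang) :
    PLS.SelfAffine (oPhi K d b) O ↔ SelfAffine K d b O := by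
  unfold PLS.SelfAffine SelfAffine
  refine forall_congr' fun l => forall_congr' fun k => forall_congr' fun (y : Fin l → K k) =>
    forall_congr' fun (i : Fin (d k)) => ?_
  have h1 : ([false, true, true] ++ List.replicate l true ++ [false] ++ List.replicate k true ++
      [false] ++ List.replicate (i : ℕ) true ++ [false] ++
      (List.ofFn fun j => List.ofFn fun a => decide ((b k).repr (y j) a = 1)).flatten) =
      false :: true :: true :: AEC.code (oPhi K d b) l k y i := by
    simp only [AEC.code, List.append_assoc, List.cons_append, List.nil_append]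
    rfl
  have h2 : (b k).repr (∑ s : Fin l → Bool, (if O (List.ofFn s) = true then 1 else 0) *
      ∏ j, if s j = true then y j else 1 - y j) i =
      ((oPhi K d b).basis k).repr (AEC.mle (oPhi K d b) O l k y) i := rfl
  rw [h1, h2]
  constructor
  · intro h
    rw [h, decide_eq_true_iff]
  · intro h
    rw [Bool.eq_iff_iff, decide_eq_true_iff]
    exact h

end Pool.Agent.PX
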