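import Mathlib

/-! # Multilinear extensions (MP_5c38ab_lc) -/

set_option autoImplicit false

namespace Pool.Agent.PX

/-- The value at `a` of the multilinear extension of `f : {0,1}^n → {0,1}` over a field of
characteristic 2. -/
def mlx {F : Type} [Field F] {n : ℕ} (f : (Fin n → Bool) → Bool) (a : Fin n → F) : F :=
  ∑ s : Fin n → Bool, if f s = true then ∏ j, (if s j = true then a j else 1 + a j) else 0

end Pool.Agent.PX
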