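import Pool.Agent.Lib_helper78.PLS.Affine
import Pool.Agent.Lib_helper57.AFF.F
import Pool.Agent.Lib_helper57.PX.Ml

/-! # The negated form relative to oracles closed under multilinear extensions, for any coding -/

set_option autoImplicit false

namespace Pool.Agent.PX

open Pool.Agent.CK Pool.Agent.RF Pool.Agent.RO Pool.Agent.ADV Pool.Agent.TD Pool.Agent.AEC
open Pool.Agent.CKP

theorem affOld (pt : List Bool → (n : ℕ) × (k : ℕ) × (Fin n → GaloisField 2 k) ×
      (GaloisField 2 k →ₗ[ZMod 2] ZMod 2)) (hpt : ∀ u, (pt u).1 ≤ u.length) (R : CK.Lang)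
    (β : ℕ → ℕ) (hβ : Filter.Tendsto β Filter.atTop Filter.atTop) :
    ∃ O : CK.Lang, CK.InP O R ∧
      (∀ u, O (false :: true :: u) = decide ((pt u).2.2.2
        (mlx (fun s : Fin (pt u).1 → Bool => O (List.ofFn s)) (pt u).2.2.1) = 1)) ∧
      PLS.Q1False O ∧ (∃ L, CK.InNP O L ∧ ¬ CK.InNP O (fun x => !L x)) ∧
      ∃ G F K, TD.TrapdoorPermutations O G F K ∧ TD.Secure O G F (fun n => 2 ^ (n / β n)) := by
  obtain ⟨ext, hext, hpar⟩ := AFF.exists_mlx pt hpt
  obtain ⟨A, hA, h⟩ := finalC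
  obtain ⟨P, G, F, K, L, hP⟩ := tdpNP hext A R β hβ
  obtain ⟨H, w, O, hO, ⟨hw1, hw2⟩, -, h5⟩ := h ext hext (CK.join P R)
  obtain ⟨h1, h2, h3, h4⟩ := hP H w O hw1 hw2 hO
  refine ⟨O, ?_, fun u => ?_, ⟨base_all O, fun B hB => ?_⟩, ⟨L, h3, h4⟩, G, F, K, h1, h2⟩
  · have h6 : PTime O (fun x : List Bool => O (false :: false :: true :: x)) :=
      PTime.ask (PTime.cons (PTime.const false) (PTime.cons (PTime.const false)
        (PTime.cons (PTime.const true) PTime.id)))
    have h7 : (fun x : List Bool => O (false :: false :: true :: x)) = R := by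
      funext x
      rw [hO.left]
      rfl
    rw [h7] at h6
    exact inP_of h6
  · rw [hO.mid]
    exact hpar O u
  · obtain ⟨S, hS, h6, -⟩ := h5 B hB.1.toBase
    exact ⟨S, hS, h6⟩

end Pool.Agent.PX
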