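import Pool.Agent.Lib_helper57.PX.Mach

/-!
# Theories relative to an oracle, their proofs, reflection and consistency (MP_5c38ab_lc)
-/

set_option autoImplicit false

namespace Pool.Agent.PX

/-! ## Syntax -/

/-- Terms: variables, `0`, `S`, `⌊t/2⌋`, `|t|`, `+`, `·`, `#` and the substitution function `sbn`
(`sbn e x z` is the Gödel number of the sentence `μ₁(e, x, z)` with numerals substituted). -/
inductive Tm : Type
  | var (i : ℕ)
  | zero
  | succ (t : Tm)
  | half (t : Tm)
  | len (t : Tm)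
  | add (s t : Tm)
  | mul (s t : Tm)
  | smash (s t : Tm)
  | sbn (r s t : Tm)

/-- Formulas.  `orc t`: the string with number `t` is in the oracle.  `tr e x w z`: the program
with code `e` accepts the inputs `x`, `w` in `|z|` steps.  `prf p z u v`: `u` is a proof of the
formula `v` from the axioms that are accepted by the program with code `p` in `|z|` steps. -/
inductive Fm : Type
  | eq (s t : Tm)
  | le (s t : Tm)
  | orc (t : Tm)
  | tr (e x w z : Tm)
  | prf (p z u v : Tm)
  | neg (φ : Fm)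
  | imp (φ ψ : Fm)
  | all (i : ℕ) (φ : Fm)

/-- conjunction -/
def Fm.and (φ ψ : Fm) : Fm := .neg (.imp φ (.neg ψ))

/-- falsum: `0 ≠ 0` -/
def falsum : Fm := .neg (.eq .zero .zero)

/-- twice a term -/
def Tm.dbl (t : Tm) : Tm := .mul (.succ (.succ .zero)) t

/-- the variable `i` occurs in the term -/
def Tm.has (i : ℕ) (t : Tm) : Prop :=
  Tm.rec (motive := fun _ => Prop) (fun j => j = i) False (fun _ p => p) (fun _ p => p)
    (fun _ p => p) (fun _ _ p q => p ∨ q) (fun _ _ p q => p ∨ q) (fun _ _ p q => p ∨ q)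
    (fun _ _ _ p q r => p ∨ q ∨ r) t

/-- the variable `i` occurs free in the formula -/
def Fm.free (i : ℕ) (φ : Fm) : Prop :=
  Fm.rec (motive := fun _ => Prop) (fun s t => s.has i ∨ t.has i) (fun s t => s.has i ∨ t.has i)
    (fun t => t.has i) (fun e x w z => e.has i ∨ x.has i ∨ w.has i ∨ z.has i)
    (fun p z u v => p.has i ∨ z.has i ∨ u.has i ∨ v.has i) (fun _ p => p)
    (fun _ _ p q => p ∨ q) (fun j _ p => j ≠ i ∧ p) φ

/-- sentences -/
def Fm.Closed (φ : Fm) : Prop := ∀ i, ¬ φ.free i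

/-- substitution of the term `a` for the variable `i` in the term `t` -/
noncomputable def Tm.sb (t : Tm) (i : ℕ) (a : Tm) : Tm :=
  Tm.rec (motive := fun _ => Tm) (fun j => if j = i then a else .var j) .zero
    (fun _ t => .succ t) (fun _ t => .half t) (fun _ t => .len t) (fun _ _ s t => .add s t)
    (fun _ _ s t => .mul s t) (fun _ _ s t => .smash s t) (fun _ _ _ r s t => .sbn r s t) t

/-- substitution of the term `a` for the free occurrences of the variable `i` -/
noncomputable def Fm.sb (i : ℕ) (a : Tm) (φ : Fm) : Fm :=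
  Fm.rec (motive := fun _ => Fm) (fun s t => .eq (s.sb i a) (t.sb i a))
    (fun s t => .le (s.sb i a) (t.sb i a)) (fun t => .orc (t.sb i a))
    (fun e x w z => .tr (e.sb i a) (x.sb i a) (w.sb i a) (z.sb i a))
    (fun p z u v => .prf (p.sb i a) (z.sb i a) (u.sb i a) (v.sb i a)) (fun _ φ => .neg φ)
    (fun _ _ φ ψ => .imp φ ψ) (fun j φ φ' => if j = i then .all j φ else .all j φ') φ

/-- the term `a` is substitutable for the variable `i` in the formula -/
def Fm.Ok (i : ℕ) (a : Tm) (φ : Fm) : Prop :=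
  Fm.rec (motive := fun _ => Prop) (fun _ _ => True) (fun _ _ => True) (fun _ => True)
    (fun _ _ _ _ => True) (fun _ _ _ _ => True) (fun _ p => p) (fun _ _ p q => p ∧ q)
    (fun j φ p => j = i ∨ ¬ φ.free i ∨ (¬ a.has j ∧ p)) φ

/-- atomic formulas -/
def Fm.Atomic (φ : Fm) : Prop := (∀ ψ, φ ≠ .neg ψ) ∧ (∀ ψ χ, φ ≠ .imp ψ χ) ∧ ∀ i ψ, φ ≠ .all i ψ

/-! ## Coding by bit strings -/

/-- The number of a bit string (bijective base 2; the first bit is the least significant one). -/
def val (x : List Bool) : ℕ := x.foldr (fun b n => 2 * n + (if b = true then 2 else 1)) 0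

/-- a tag -/
def tag (k : ℕ) : List Bool := List.replicate k true ++ [false]

/-- the code of a term -/
noncomputable def Tm.enc (t : Tm) : List Bool :=
  Tm.rec (motive := fun _ => List Bool) (fun i => tag 0 ++ tag i) (tag 1)
    (fun _ x => tag 2 ++ x) (fun _ x => tag 3 ++ x) (fun _ x => tag 4 ++ x)
    (fun _ _ x y => tag 5 ++ (x ++ y)) (fun _ _ x y => tag 6 ++ (x ++ y))
    (fun _ _ x y => tag 7 ++ (x ++ y)) (fun _ _ _ x y z => tag 8 ++ (x ++ (y ++ z))) t

/-- the code of a formula -/
noncomputable def Fm.enc (φ : Fm) : List Bool :=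
  Fm.rec (motive := fun _ => List Bool) (fun s t => tag 0 ++ (s.enc ++ t.enc))
    (fun s t => tag 1 ++ (s.enc ++ t.enc)) (fun t => tag 2 ++ t.enc)
    (fun e x w z => tag 3 ++ (e.enc ++ (x.enc ++ (w.enc ++ z.enc))))
    (fun p z u v => tag 4 ++ (p.enc ++ (z.enc ++ (u.enc ++ v.enc)))) (fun _ x => tag 5 ++ x)
    (fun _ _ x y => tag 6 ++ (x ++ y)) (fun i _ x => tag 7 ++ (tag i ++ x)) φ

/-- the code of a program -/
noncomputable def Cmd.enc (c : Cmd) : List Bool :=
  Cmd.rec (motive := fun _ => List Bool) (tag 0) (fun r b => tag 1 ++ (tag r ++ [b]))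
    (fun r => tag 2 ++ tag r) (fun _ _ x y => tag 3 ++ (x ++ y))
    (fun r _ _ _ x y z => tag 4 ++ (tag r ++ (x ++ (y ++ z))))
    (fun r _ x => tag 5 ++ (tag r ++ x)) (fun r _ _ x y => tag 6 ++ (tag r ++ (x ++ y))) c

/-- the code of a list of formulas (codes of formulas are prefix-free) -/
noncomputable def pEnc (l : List Fm) : List Bool := l.flatMap Fm.enc

/-! ## Numerals, the universal formula, reflection and consistency -/

/-- The numeral of `n` (bijective base 2), of length `O(log n)`: the numeral of `2 k + 1` is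
`S (2 · k)`, that of `2 k + 2` is `S (S (2 · k))`. -/
noncomputable def num (n : ℕ) : Tm :=
  Nat.rec (motive := fun _ => ℕ → Tm) (fun _ => .zero)
    (fun _ f m => if m = 0 then .zero else
      if m % 2 = 1 then .succ (f ((m - 1) / 2)).dbl else .succ (.succ (f ((m - 1) / 2)).dbl)) n n

/-- The universal formula `μ₁(e, x, z)`: there is `w ≤ z` such that the program `e` accepts the
inputs `x`, `w` in `|z|` steps.  (The terms must not contain the variable `4`.) -/
def mu (e x z : Tm) : Fm := .neg (.all 4 (.neg (.and (.le (.var 4) z) (.tr e x (.var 4) z))))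

/-- a term of length at least `(|t| + 2) ^ k` -/
noncomputable def clk (k : ℕ) (t : Tm) : Tm :=
  Nat.rec (motive := fun _ => Tm) (.succ .zero) (fun _ c => .smash c (.succ (Tm.succ t.dbl).dbl)) k

/-- `Pr_T(u, v)`, `T` the theory with the axioms accepted by the program `p` in time
`(|σ| + 2) ^ k`: `u` is a proof in `T` of the formula with Gödel number `v` -/
noncomputable def Pr (p : Cmd) (k : ℕ) (u v : Tm) : Fm := .prf (num (val p.enc)) (clk k u) u v

/-- `Σ^b_1RFN_T(n)`: for all `e, u, x, z` of length at most `n`, if `u` is a proof in `T` of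
`μ₁(e, x, z)` then `μ₁(e, x, z)`. -/
noncomputable def RFN (p : Cmd) (k : ℕ) (n : ℕ) : Fm :=
  .all 0 (.all 1 (.all 2 (.all 3 (.imp
    (.and (.le (.len (.var 0)) (num n)) (.and (.le (.len (.var 1)) (num n))
      (.and (.le (.len (.var 2)) (num n)) (.and (.le (.len (.var 3)) (num n))
        (Pr p k (.var 1) (.sbn (.var 0) (.var 2) (.var 3)))))))
    (mu (.var 0) (.var 2) (.var 3))))))

/-- `Con_T(n)`: no proof in `T` of length at most `n` is a proof of falsum. -/
noncomputable def Con (p : Cmd) (k : ℕ) (n : ℕ) : Fm :=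
  .all 1 (.imp (.le (.len (.var 1)) (num n)) (.neg (Pr p k (.var 1) (num (val falsum.enc)))))

/-! ## The proof calculus -/

/-- The logical axioms (as in Enderton's textbook, with the propositional axioms of
Łukasiewicz): all generalizations of the following formulas. -/
inductive Logical : Fm → Prop
  | k (φ ψ : Fm) : Logical (.imp φ (.imp ψ φ))
  | s (φ ψ χ : Fm) : Logical (.imp (.imp φ (.imp ψ χ)) (.imp (.imp φ ψ) (.imp φ χ)))
  | c (φ ψ : Fm) : Logical (.imp (.imp (.neg φ) (.neg ψ)) (.imp ψ φ))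
  | inst (i : ℕ) (φ : Fm) (a : Tm) (h : φ.Ok i a) : Logical (.imp (.all i φ) (φ.sb i a))
  | dist (i : ℕ) (φ ψ : Fm) :
      Logical (.imp (.all i (.imp φ ψ)) (.imp (.all i φ) (.all i ψ)))
  | vac (i : ℕ) (φ : Fm) (h : ¬ φ.free i) : Logical (.imp φ (.all i φ))
  | refl (t : Tm) : Logical (.eq t t)
  | leib (i : ℕ) (φ : Fm) (s t : Tm) (h : φ.Atomic) :
      Logical (.imp (.eq s t) (.imp (φ.sb i s) (φ.sb i t)))
  | gen (i : ℕ) (φ : Fm) (h : Logical φ) : Logical (.all i φ)

/-- The list is a proof from the axioms `A`: every entry is a logical axiom, or in `A`, or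
follows by modus ponens from two earlier entries. -/
inductive IsProof (A : Fm → Prop) : List Fm → Prop
  | nil : IsProof A []
  | ax (l : List Fm) (φ : Fm) (h : IsProof A l) (h' : Logical φ ∨ A φ) : IsProof A (l ++ [φ])
  | mp (l : List Fm) (φ ψ : Fm) (h : IsProof A l) (h₁ : ψ ∈ l) (h₂ : Fm.imp ψ φ ∈ l) :
      IsProof A (l ++ [φ])

/-- The list is a proof from the axioms `A` of its last entry `φ`. -/
def ProofOf (A : Fm → Prop) (φ : Fm) (l : List Fm) : Prop := IsProof A l ∧ l.getLast? = some φ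

/-! ## The theory `S^1_2` (in the language with the oracle) -/

/-- disjunction -/
def Fm.or (φ ψ : Fm) : Fm := .imp (.neg φ) ψ

/-- equivalence -/
def Fm.iff (φ ψ : Fm) : Fm := .and (.imp φ ψ) (.imp ψ φ)

section Basic

open Tm Fm

/-- Buss's 32 axioms BASIC (with the variables `0, 1, 2, 3` for `x, y, z, u`). -/
def basicAxioms : List Fm :=
  let x := var 0
  let y := var 1
  let z := var 2
  let u := var 3
  let one := succ zero
  [ imp (le y x) (le y (succ x)),
    neg (eq x (succ x)),
    le zero x,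
    (and (le x y) (neg (eq x y))).iff (le (succ x) y),
    imp (neg (eq x zero)) (neg (eq x.dbl zero)),
    (le x y).or (le y x),
    imp (and (le x y) (le y x)) (eq x y),
    imp (and (le x y) (le y z)) (le x z),
    eq (len zero) zero,
    imp (neg (eq x zero)) (and (eq (len x.dbl) (succ (len x)))
      (eq (len (succ x.dbl)) (succ (len x)))),
    eq (len one) one,
    imp (le x y) (le (len x) (len y)),
    eq (len (smash x y)) (succ (mul (len x) (len y))),
    eq (smash zero x) one,
    imp (neg (eq x zero)) (and (eq (smash one x.dbl) (smash one x).dbl)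
      (eq (smash one (succ x.dbl)) (smash one x).dbl)),
    eq (smash x y) (smash y x),
    imp (eq (len x) (len y)) (eq (smash x z) (smash y z)),
    imp (eq (len x) (add (len z) (len u))) (eq (smash x y) (mul (smash z y) (smash u y))),
    le x (add x y),
    imp (and (le x y) (neg (eq x y))) (and (le (succ x.dbl) y.dbl) (neg (eq (succ x.dbl) y.dbl))),
    eq (add x y) (add y x),
    eq (add x zero) x,
    eq (add x (succ y)) (succ (add x y)),
    eq (add (add x y) z) (add x (add y z)),
    (le (add x y) (add x z)).iff (le y z),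
    eq (mul x zero) zero,
    eq (mul x (succ y)) (add (mul x y) x),
    eq (mul x y) (mul y x),
    eq (mul x (add y z)) (add (mul x y) (mul x z)),
    imp (le one x) ((le (mul x y) (mul x z)).iff (le y z)),
    imp (neg (eq x zero)) (eq (len x) (succ (len (half x)))),
    (eq x (half y)).iff ((eq x.dbl y).or (eq (succ x.dbl) y)) ]

end Basic

/-- sharply bounded formulas -/
inductive Sb0 : Fm → Prop
  | atom (φ : Fm) (h : φ.Atomic) : Sb0 φ
  | neg (φ : Fm) (h : Sb0 φ) : Sb0 (.neg φ)
  | imp (φ ψ : Fm) (h : Sb0 φ) (h' : Sb0 ψ) : Sb0 (.imp φ ψ)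
  | all (i : ℕ) (t : Tm) (φ : Fm) (ht : ¬ t.has i) (h : Sb0 φ) :
      Sb0 (.all i (.imp (.le (.var i) (.len t)) φ))

/-- `Sb1 true` is the class of the `Σ^b_1` formulas, `Sb1 false` that of the `Π^b_1` formulas
(`∃ x ≤ t` is `¬ ∀ x ≤ t ¬`). -/
inductive Sb1 : Bool → Fm → Prop
  | base (b : Bool) (φ : Fm) (h : Sb0 φ) : Sb1 b φ
  | neg (b : Bool) (φ : Fm) (h : Sb1 (!b) φ) : Sb1 b (.neg φ)
  | imp (b : Bool) (φ ψ : Fm) (h : Sb1 (!b) φ) (h' : Sb1 b ψ) : Sb1 b (.imp φ ψ)
  | sharp (b : Bool) (i : ℕ) (t : Tm) (φ : Fm) (ht : ¬ t.has i) (h : Sb1 b φ) :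
      Sb1 b (.all i (.imp (.le (.var i) (.len t)) φ))
  | bdd (i : ℕ) (t : Tm) (φ : Fm) (ht : ¬ t.has i) (h : Sb1 false φ) :
      Sb1 false (.all i (.imp (.le (.var i) t) φ))

/-- the formula of `φ(0) ∧ ∀ x (φ(⌊x/2⌋) → φ(x)) → ∀ x φ(x)`, `x` the variable `i` -/
noncomputable def pind (i : ℕ) (φ : Fm) : Fm :=
  .imp (φ.sb i .zero) (.imp (.all i (.imp (φ.sb i (.half (.var i))) φ)) (.all i φ))

/-- generalizations of the axioms BASIC and of the axioms of length induction PIND for `Σ^b_1`
formulas (which may contain the symbols `orc`, `tr`, `prf` and `sbn`) -/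
inductive S12 : Fm → Prop
  | basic (φ : Fm) (h : φ ∈ basicAxioms) : S12 φ
  | pind (i : ℕ) (φ : Fm) (h : Sb1 true φ) : S12 (pind i φ)
  | all (i : ℕ) (φ : Fm) (h : S12 φ) : S12 (.all i φ)

/-! ## Truth relative to an oracle -/

/-- The Gödel number of `μ₁(e, x, z)`. -/
noncomputable def gmu (e x z : ℕ) : ℕ := val (mu (num e) (num x) (num z)).enc

/-- the value of a term -/
noncomputable def Tm.ev (v : ℕ → ℕ) (t : Tm) : ℕ :=
  Tm.rec (motive := fun _ => ℕ) v 0 (fun _ a => a + 1) (fun _ a => a / 2) (fun _ a => Nat.size a)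
    (fun _ _ a b => a + b) (fun _ _ a b => a * b) (fun _ _ a b => 2 ^ (Nat.size a * Nat.size b))
    (fun _ _ _ a b c => gmu a b c) t

/-- The program with code `e` accepts `x`, `w` with oracle `O` in `|z|` steps. -/
def TrRel (O : Lang) (e x w z : ℕ) : Prop :=
  ∃ (c : Cmd) (a b : List Bool), val c.enc = e ∧ val a = x ∧ val b = w ∧
    Accepts O c a b (Nat.size z)

/-- `u` is the number of a proof of the formula with number `v` from the axioms accepted with
oracle `O` in `|z|` steps by the program with code `p`. -/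
def PrfRel (O : Lang) (p z u v : ℕ) : Prop :=
  ∃ (c : Cmd) (l : List Fm) (φ : Fm), val c.enc = p ∧ val (pEnc l) = u ∧ val φ.enc = v ∧
    ProofOf (fun σ => Accepts O c σ.enc [] (Nat.size z)) φ l

/-- The formula holds in `ℕ`, with oracle `O`, under the assignment `v`. -/
def Fm.Holds (O : Lang) (φ : Fm) (v : ℕ → ℕ) : Prop :=
  Fm.rec (motive := fun _ => (ℕ → ℕ) → Prop)
    (fun s t v => s.ev v = t.ev v)
    (fun s t v => s.ev v ≤ t.ev v)
    (fun t v => ∃ x, val x = t.ev v ∧ O x = true)
    (fun e x w z v => TrRel O (e.ev v) (x.ev v) (w.ev v) (z.ev v))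
    (fun p z u w v => PrfRel O (p.ev v) (z.ev v) (u.ev v) (w.ev v))
    (fun _ P v => ¬ P v)
    (fun _ _ P Q v => P v → Q v)
    (fun i _ P v => ∀ a : ℕ, P (Function.update v i a))
    φ v

/-! ## Theories relative to an oracle -/

/-- The axioms of the theory given by the program `p` and the exponent `k`. -/
def Ax (O : Lang) (p : Cmd) (k : ℕ) (σ : Fm) : Prop :=
  Accepts O p σ.enc [] ((σ.enc.length + 2) ^ k)

/-- A base theory: a set of true sentences, decidable in polynomial time with oracle `O`, which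
contains `S^1_2`, the true sentences `a ≤ b` and the diagram of `O`, and refutes every false
sentence `μ₁(e, x, z)`, `Σ^b_1RFN_T(n)`, `Con_T(n)`. -/
structure BaseTheory (O : Lang) (B : Fm → Prop) : Prop where
  closed : ∀ σ, B σ → σ.Closed
  isTrue : ∀ σ, B σ → ∀ v, σ.Holds O v
  dec : ∃ (p : Cmd) (k : ℕ), (∀ x, Halts O p x [] ((x.length + 2) ^ k)) ∧ ∀ σ, Ax O p k σ ↔ B σ
  s12 : ∀ σ, S12 σ → σ.Closed → B σ
  leD : ∀ a b : ℕ, a ≤ b → B (.le (num a) (num b))
  orcD : ∀ x : List Bool, O x = true → B (.orc (num (val x)))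
  orcN : ∀ x : List Bool, O x = false → B (.neg (.orc (num (val x))))
  refMu : ∀ e x z : ℕ, ¬ (∀ v, (mu (num e) (num x) (num z)).Holds O v) →
    ∃ l, ProofOf B (.neg (mu (num e) (num x) (num z))) l
  refRFN : ∀ (p : Cmd) (k n : ℕ), ¬ (∀ v, (RFN p k n).Holds O v) →
    ∃ l, ProofOf B (.neg (RFN p k n)) l
  refCon : ∀ (p : Cmd) (k n : ℕ), ¬ (∀ v, (Con p k n).Holds O v) →
    ∃ l, ProofOf B (.neg (Con p k n)) l

/-- The class of the consistent theories that extend the base theory `B` and have a set of axioms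
(sentences) decidable in polynomial time with oracle `O`. -/
structure InT (O : Lang) (B : Fm → Prop) (p : Cmd) (k : ℕ) : Prop where
  halts : ∀ x, Halts O p x [] ((x.length + 2) ^ k)
  ext : ∀ σ, B σ → Ax O p k σ
  closed : ∀ σ, Ax O p k σ → σ.Closed
  cons : ∀ l, ¬ ProofOf (Ax O p k) falsum l

/-- For some polynomial, all sentences `Φ n` have proofs of length at most `n ^ c + c` from the
axioms `A`. -/
def PolyBounded (A : Fm → Prop) (Φ : ℕ → Fm) : Prop :=
  ∃ c : ℕ, ∀ n, ∃ l, ProofOf A (Φ n) l ∧ (pEnc l).length ≤ n ^ c + c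

end Pool.Agent.PX
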