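import Pool.Agent.Lib_helper57.PX.Mach

/-! # Polynomial time with oracle (MP_5c38ab_lc) -/

set_option autoImplicit false

namespace Pool.Agent.PX

/-- `L ∈ P^O`. -/
def InP (O L : Lang) : Prop :=
  ∃ (c : Cmd) (k : ℕ), ∀ x : List Bool,
    Halts O c x [] ((x.length + 2) ^ k) ∧ (Accepts O c x [] ((x.length + 2) ^ k) ↔ L x = true)

end Pool.Agent.PX
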