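import Pool.Agent.Lib_helper57.PX.Arith
import Pool.Agent.Lib_helper57.PX.Join
import Pool.Agent.Lib_helper57.PX.InP
import Pool.Agent.Lib_helper57.PX.InNP
import Pool.Agent.Lib_helper57.PX.InFP
import Pool.Agent.Lib_helper78.RO.Base

/-! # Comparison of the definitions: machines, syntax (MP_5c38ab_lc) -/

set_option autoImplicit false

namespace Pool.Agent.PX

/-! ## Machines -/

def oC : Cmd → CK.Cmd
  | .skip => .skip
  | .push r b => .push r b
  | .pop r => .pop r
  | .seq c d => .seq (oC c) (oC d)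
  | .cond r b c d => .cond r (oC b) (oC c) (oC d)
  | .loop r c => .loop r (oC c)
  | .ask r c d => .ask r (oC c) (oC d)

def nC : CK.Cmd → Cmd
  | .skip => .skip
  | .push r b => .push r b
  | .pop r => .pop r
  | .seq c d => .seq (nC c) (nC d)
  | .cond r b c d => .cond r (nC b) (nC c) (nC d)
  | .loop r c => .loop r (nC c)
  | .ask r c d => .ask r (nC c) (nC d)

theorem nC_oC (c : Cmd) : nC (oC c) = c := by
  induction c <;> simp_all [oC, nC]

theorem oC_nC (c : CK.Cmd) : oC (nC c) = c := by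
  induction c <;> simp_all [oC, nC]

theorem oC_inj {c d : Cmd} (h : oC c = oC d) : c = d := by
  rw [← nC_oC c, h, nC_oC]

theorem oC_surj (c : CK.Cmd) : ∃ d, oC d = c := ⟨nC c, oC_nC c⟩

theorem init_eq (x y : List Bool) : CK.init x y = init x y := by
  funext r
  match r with
  | 0 => rfl
  | 1 => rfl
  | r + 2 => simp [CK.init, init]

/-- the old configuration -/
def oCf (a : Config) : CK.Config := (a.todo.map oC, a.st)

theorem step_eq (O : Lang) (a : Config) : CK.step O (oCf a) = oCf (step O a) := by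
  obtain ⟨l, s⟩ := a
  cases l with
  | nil => rfl
  | cons c k =>
    cases c with
    | skip => rfl
    | push r b => rfl
    | pop r => rfl
    | seq c d => rfl
    | cond r b c d =>
      have h : (match s r with | [] => oC b | false :: _ => oC c | true :: _ => oC d) =
          oC (if s r = [] then b else if (s r).head? = some false then c else d) := by
        split <;> simp [*]
      exact Prod.ext (congrArg (· :: k.map oC) h) rfl
    | loop r c =>
      simp only [oCf, step, exec, List.map_cons, oC, CK.step]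
      by_cases h : s r = [] <;> simp [h, oC]
    | ask r c d =>
      simp only [oCf, step, exec, List.map_cons, oC, CK.step]
      by_cases h : O (s r) = true <;> simp [h]

theorem iter_eq (O : Lang) (t : ℕ) (a : Config) :
    (CK.step O)^[t] (oCf a) = oCf ((step O)^[t] a) := by
  induction t generalizing a with
  | zero => rfl
  | succ t ih => rw [Function.iterate_succ_apply, Function.iterate_succ_apply, step_eq, ih]

theorem run_eq (O : Lang) (c : Cmd) (x y : List Bool) (t : ℕ) :
    CK.run O (oC c) x y t = oCf (run O c x y t) := by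
  unfold CK.run run
  rw [← iter_eq, init_eq]
  rfl

theorem halts_iff (O : Lang) (c : Cmd) (x y : List Bool) (t : ℕ) :
    CK.Halts O (oC c) x y t ↔ Halts O c x y t := by
  unfold CK.Halts Halts
  rw [run_eq]
  simp [oCf]

theorem accepts_iff (O : Lang) (c : Cmd) (x y : List Bool) (t : ℕ) :
    CK.Accepts O (oC c) x y t ↔ Accepts O c x y t := by
  unfold CK.Accepts Accepts
  rw [run_eq]
  simp [oCf]

theorem exC {P : CK.Cmd → Prop} : (∃ c, P c) ↔ ∃ c, P (oC c) :=
  ⟨fun ⟨c, h⟩ => ⟨nC c, by rwa [oC_nC]⟩, fun ⟨c, h⟩ => ⟨oC c, h⟩⟩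

theorem allC {P : CK.Cmd → Prop} : (∀ c, P c) ↔ ∀ c, P (oC c) :=
  ⟨fun h c => h _, fun h c => by rw [← oC_nC c]; exact h _⟩

theorem inP_iff (O L : Lang) : CK.InP O L ↔ InP O L := by
  unfold CK.InP InP
  rw [exC]
  simp only [halts_iff, accepts_iff]

theorem inNP_iff (O L : Lang) : CK.InNP O L ↔ InNP O L := by
  unfold CK.InNP InNP
  rw [exC]
  simp only [halts_iff, accepts_iff]

theorem inFP_iff (O : Lang) (f : List Bool → List Bool) : CK.InFP O f ↔ InFP O f := by
  unfold CK.InFP InFP
  rw [exC]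
  simp only [halts_iff, run_eq, oCf]

theorem join_eq (O B : Lang) : CK.join O B = join O B := by
  funext x
  rcases x with _ | ⟨b, w⟩
  · rfl
  · cases b <;> rfl

/-! ## Syntax -/

def oT : Tm → RF.Tm
  | .var i => .var i
  | .zero => .zero
  | .succ t => .succ (oT t)
  | .half t => .half (oT t)
  | .len t => .len (oT t)
  | .add s t => .add (oT s) (oT t)
  | .mul s t => .mul (oT s) (oT t)
  | .smash s t => .smash (oT s) (oT t)
  | .sbn r s t => .sbn (oT r) (oT s) (oT t)

def nT : RF.Tm → Tm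
  | .var i => .var i
  | .zero => .zero
  | .succ t => .succ (nT t)
  | .half t => .half (nT t)
  | .len t => .len (nT t)
  | .add s t => .add (nT s) (nT t)
  | .mul s t => .mul (nT s) (nT t)
  | .smash s t => .smash (nT s) (nT t)
  | .sbn r s t => .sbn (nT r) (nT s) (nT t)

theorem nT_oT (t : Tm) : nT (oT t) = t := by
  induction t <;> simp_all [oT, nT]

theorem oT_nT (t : RF.Tm) : oT (nT t) = t := by
  induction t <;> simp_all [oT, nT]

def oF : Fm → RF.Fm
  | .eq s t => .eq (oT s) (oT t)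
  | .le s t => .le (oT s) (oT t)
  | .orc t => .orc (oT t)
  | .tr e x w z => .tr (oT e) (oT x) (oT w) (oT z)
  | .prf p z u v => .prf (oT p) (oT z) (oT u) (oT v)
  | .neg φ => .neg (oF φ)
  | .imp φ ψ => .imp (oF φ) (oF ψ)
  | .all i φ => .all i (oF φ)

def nF : RF.Fm → Fm
  | .eq s t => .eq (nT s) (nT t)
  | .le s t => .le (nT s) (nT t)
  | .orc t => .orc (nT t)
  | .tr e x w z => .tr (nT e) (nT x) (nT w) (nT z)
  | .prf p z u v => .prf (nT p) (nT z) (nT u) (nT v)
  | .neg φ => .neg (nF φ)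
  | .imp φ ψ => .imp (nF φ) (nF ψ)
  | .all i φ => .all i (nF φ)

theorem nF_oF (φ : Fm) : nF (oF φ) = φ := by
  induction φ <;> simp_all [oF, nF, nT_oT]

theorem oF_nF (φ : RF.Fm) : oF (nF φ) = φ := by
  induction φ <;> simp_all [oF, nF, oT_nT]

theorem oT_inj {c d : Tm} (h : oT c = oT d) : c = d := by
  rw [← nT_oT c, h, nT_oT]

theorem oF_inj {c d : Fm} (h : oF c = oF d) : c = d := by
  rw [← nF_oF c, h, nF_oF]

theorem oF_inj_iff {c d : Fm} : oF c = oF d ↔ c = d := ⟨oF_inj, fun h => by rw [h]⟩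

theorem exF {P : RF.Fm → Prop} : (∃ c, P c) ↔ ∃ c, P (oF c) :=
  ⟨fun ⟨c, h⟩ => ⟨nF c, by rwa [oF_nF]⟩, fun ⟨c, h⟩ => ⟨oF c, h⟩⟩

theorem allF {P : RF.Fm → Prop} : (∀ c, P c) ↔ ∀ c, P (oF c) :=
  ⟨fun h c => h _, fun h c => by rw [← oF_nF c]; exact h _⟩

theorem has_iff (i : ℕ) (t : Tm) : (oT t).has i ↔ t.has i := by
  induction t with
  | var j => rfl
  | zero => rfl
  | succ t ih => exact ih
  | half t ih => exact ih
  | len t ih => exact ih
  | add s t ih ih' => exact or_congr ih ih'
  | mul s t ih ih' => exact or_congr ih ih'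
  | smash s t ih ih' => exact or_congr ih ih'
  | sbn r s t ih ih' ih'' => exact or_congr ih (or_congr ih' ih'')

theorem free_iff (i : ℕ) (φ : Fm) : (oF φ).free i ↔ φ.free i := by
  induction φ with
  | eq s t => exact or_congr (has_iff i s) (has_iff i t)
  | le s t => exact or_congr (has_iff i s) (has_iff i t)
  | orc t => exact has_iff i t
  | tr e x w z =>
    exact or_congr (has_iff i e) (or_congr (has_iff i x) (or_congr (has_iff i w) (has_iff i z)))
  | prf e x w z =>
    exact or_congr (has_iff i e) (or_congr (has_iff i x) (or_congr (has_iff i w) (has_iff i z)))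
  | neg φ ih => exact ih
  | imp φ ψ ih ih' => exact or_congr ih ih'
  | all j φ ih => exact and_congr Iff.rfl ih

theorem closed_iff (φ : Fm) : (oF φ).Closed ↔ φ.Closed := by
  unfold RF.Fm.Closed Fm.Closed
  simp only [free_iff]

theorem sbT_eq (i : ℕ) (a t : Tm) : (oT t).sb i (oT a) = oT (t.sb i a) := by
  induction t with
  | var j =>
    simp only [oT, RF.Tm.sb, Tm.sb]
    split_ifs <;> rfl
  | zero => rfl
  | succ t ih => exact congrArg RF.Tm.succ ih
  | half t ih => exact congrArg RF.Tm.half ih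
  | len t ih => exact congrArg RF.Tm.len ih
  | add s t ih ih' => exact congrArg₂ RF.Tm.add ih ih'
  | mul s t ih ih' => exact congrArg₂ RF.Tm.mul ih ih'
  | smash s t ih ih' => exact congrArg₂ RF.Tm.smash ih ih'
  | sbn r s t ih ih' ih'' =>
    change RF.Tm.sbn _ _ _ = RF.Tm.sbn _ _ _
    exact congr (congrArg₂ RF.Tm.sbn ih ih') ih''

theorem sbF_eq (i : ℕ) (a : Tm) (φ : Fm) : (oF φ).sb i (oT a) = oF (φ.sb i a) := by
  induction φ with
  | eq s t => simp only [oF, RF.Fm.sb, Fm.sb, sbT_eq]
  | le s t => simp only [oF, RF.Fm.sb, Fm.sb, sbT_eq]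
  | orc t => simp only [oF, RF.Fm.sb, Fm.sb, sbT_eq]
  | tr e x w z => simp only [oF, RF.Fm.sb, Fm.sb, sbT_eq]
  | prf e x w z => simp only [oF, RF.Fm.sb, Fm.sb, sbT_eq]
  | neg φ ih => exact congrArg RF.Fm.neg ih
  | imp φ ψ ih ih' => exact congrArg₂ RF.Fm.imp ih ih'
  | all j φ ih =>
    simp only [oF, RF.Fm.sb]
    by_cases h : j = i
    · simp [h, Fm.sb, oF]
    · rw [if_neg h, ih]
      simp [h, Fm.sb, oF]

theorem ok_iff (i : ℕ) (a : Tm) (φ : Fm) : (oF φ).Ok i (oT a) ↔ φ.Ok i a := by
  induction φ with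
  | eq s t => exact Iff.rfl
  | le s t => exact Iff.rfl
  | orc t => exact Iff.rfl
  | tr e x w z => exact Iff.rfl
  | prf e x w z => exact Iff.rfl
  | neg φ ih => exact ih
  | imp φ ψ ih ih' => exact and_congr ih ih'
  | all j φ ih =>
    exact or_congr Iff.rfl (or_congr (not_congr (free_iff i φ))
      (and_congr (not_congr (has_iff j a)) ih))

theorem atomic_iff (φ : Fm) : (oF φ).Atomic ↔ φ.Atomic := by
  cases φ <;> simp [oF, RF.Fm.Atomic, Fm.Atomic]

/-! ## Codes -/

theorem val_eq (x : List Bool) : RF.val x = val x := by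
  induction x with
  | nil => rfl
  | cons b l ih =>
    simp only [RF.val, val, List.foldr_cons] at ih ⊢
    rw [ih]

theorem tag_eq (k : ℕ) : RF.tag k = tag k := rfl

theorem encT_eq (t : Tm) : (oT t).enc = t.enc := by
  induction t with
  | var j => rfl
  | zero => rfl
  | succ t ih => exact congrArg (RF.tag 2 ++ ·) ih
  | half t ih => exact congrArg (RF.tag 3 ++ ·) ih
  | len t ih => exact congrArg (RF.tag 4 ++ ·) ih
  | add s t ih ih' => simp only [oT, RF.Tm.enc, ih, ih']; rfl
  | mul s t ih ih' => simp only [oT, RF.Tm.enc, ih, ih']; rfl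
  | smash s t ih ih' => simp only [oT, RF.Tm.enc, ih, ih']; rfl
  | sbn r s t ih ih' ih'' => simp only [oT, RF.Tm.enc, ih, ih', ih'']; rfl

theorem encF_eq (φ : Fm) : (oF φ).enc = φ.enc := by
  induction φ with
  | eq s t => simp only [oF, RF.Fm.enc, encT_eq]; rfl
  | le s t => simp only [oF, RF.Fm.enc, encT_eq]; rfl
  | orc t => simp only [oF, RF.Fm.enc, encT_eq]; rfl
  | tr e x w z => simp only [oF, RF.Fm.enc, encT_eq]; rfl
  | prf e x w z => simp only [oF, RF.Fm.enc, encT_eq]; rfl
  | neg φ ih => simp only [oF, RF.Fm.enc, ih]; rfl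
  | imp φ ψ ih ih' => simp only [oF, RF.Fm.enc, ih, ih']; rfl
  | all j φ ih => simp only [oF, RF.Fm.enc, ih]; rfl

theorem encC_eq (c : Cmd) : RF.cEnc (oC c) = c.enc := by
  induction c with
  | skip => rfl
  | push r b => rfl
  | pop r => rfl
  | seq c d ih ih' => simp only [oC, RF.cEnc, ih, ih']; rfl
  | cond r b c d ih ih' ih'' => simp only [oC, RF.cEnc, ih, ih', ih'']; rfl
  | loop r c ih => simp only [oC, RF.cEnc, ih]; rfl
  | ask r c d ih ih' => simp only [oC, RF.cEnc, ih, ih']; rfl

theorem pEnc_eq (l : List Fm) : RF.pEnc (l.map oF) = pEnc l := by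
  unfold RF.pEnc pEnc
  rw [List.map_map, List.flatMap_def]
  congr 1
  apply List.map_congr_left
  intro φ _
  exact encF_eq φ

/-- the recursion behind `num` -/
theorem numAux (f : ℕ) : ∀ m, m ≤ f →
    oT (Nat.rec (motive := fun _ => ℕ → Tm) (fun _ => .zero)
      (fun _ f m => if m = 0 then .zero else
        if m % 2 = 1 then .succ (f ((m - 1) / 2)).dbl
        else .succ (.succ (f ((m - 1) / 2)).dbl)) f m) = RF.num m := by
  induction f with
  | zero =>
    intro m hm
    obtain rfl : m = 0 := by omega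
    rw [RF.num]
    rfl
  | succ f ih =>
    intro m hm
    rcases m with _ | m
    · rw [RF.num]; rfl
    · rw [RF.num]
      have h1 := ih (m / 2) (by omega)
      by_cases h : m % 2 = 0
      · have h2 : (m + 1) % 2 = 1 := by omega
        simp only [h2, h, if_true, Nat.add_sub_cancel, Nat.succ_ne_zero, if_false]
        exact congrArg (fun t => RF.Tm.succ (RF.Tm.mul (RF.Tm.succ (RF.Tm.succ RF.Tm.zero)) t)) h1
      · have h2 : ¬ (m + 1) % 2 = 1 := by omega
        simp only [h2, h, Nat.add_sub_cancel, Nat.succ_ne_zero, if_false]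
        exact congrArg (fun t => RF.Tm.succ (RF.Tm.succ (RF.Tm.mul
          (RF.Tm.succ (RF.Tm.succ RF.Tm.zero)) t))) h1

theorem num_eq (n : ℕ) : oT (num n) = RF.num n := numAux n n le_rfl

theorem clk_eq (k : ℕ) (t : Tm) : oT (clk k t) = RF.clk k (oT t) := by
  induction k with
  | zero => rfl
  | succ k ih =>
    change RF.Tm.smash (oT (clk k t)) _ = RF.Tm.smash (RF.clk k (oT t)) _
    rw [ih]
    rfl

theorem mu_eq (e x z : Tm) : oF (mu e x z) = RF.mu (oT e) (oT x) (oT z) := rfl

theorem falsum_eq : oF falsum = RF.falsum := rfl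

theorem pr_eq (p : Cmd) (k : ℕ) (u v : Tm) : oF (Pr p k u v) = RF.Pr (oC p, k) (oT u) (oT v) := by
  simp only [Pr, RF.Pr, oF, num_eq, clk_eq, encC_eq, val_eq]

theorem rfn_eq (p : Cmd) (k n : ℕ) : oF (RFN p k n) = RF.RFN (oC p, k) n := by
  simp only [RFN, RF.RFN, oF, Fm.and, RF.Fm.and, pr_eq, num_eq, mu_eq, oT]

theorem con_eq (p : Cmd) (k n : ℕ) : oF (Con p k n) = RF.Con (oC p, k) n := by
  simp only [Con, RF.Con, oF, pr_eq, num_eq, oT, ← falsum_eq, encF_eq, val_eq]

end Pool.Agent.PX
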