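import Pool.Agent.Lib_helper57.PX.InP
import Pool.Agent.Lib_helper57.PX.InNP
import Pool.Agent.Lib_helper57.PX.InFP
import Pool.Agent.Lib_helper57.PX.Join

/-! # Reducibilities, complete languages, isomorphisms (MP_675993_lc) -/

set_option autoImplicit false

namespace Pool.Agent.PX

/-- `C` is `≤_T^P`-complete for `NP`, relative to `O`. -/
def TuringComplete (O C : Lang) : Prop := InNP O C ∧ ∀ A, InNP O A → InP (join O C) A

/-- `C` is `≤_m^P`-complete for `NP`, relative to `O`. -/
def ManyOneComplete (O C : Lang) : Prop :=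
  InNP O C ∧ ∀ A, InNP O A → ∃ f : List Bool → List Bool, InFP O f ∧ ∀ x, A x = C (f x)

/-- `A` and `B` are isomorphic by a bijection `h` of the strings such that `h` and its inverse `g`
are computable in polynomial time with oracle `O`. -/
def PIso (O A B : Lang) : Prop :=
  ∃ h g : List Bool → List Bool, InFP O h ∧ InFP O g ∧ (∀ x, g (h x) = x) ∧ (∀ x, h (g x) = x) ∧
    ∀ x, A x = B (h x)

end Pool.Agent.PX
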