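import Pool.Agent.Lib_helper57.PX.IsoA
import Pool.Agent.Lib_helper57.PX.Red
import Pool.Agent.Lib_helper57.PX.TDP
import Pool.Agent.Lib_helper57.PX.Ml
import Pool.Agent.Lib_helper57.AFQ.MainQ

/-! # Comparison of the definitions: complete languages, isomorphisms (MP_675993_lc) -/

set_option autoImplicit false

namespace Pool.Agent.PX

theorem turingComplete_iff (O C : Lang) : CK.TuringComplete O C ↔ TuringComplete O C := by
  unfold CK.TuringComplete TuringComplete CK.TuringReducible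
  simp only [inNP_iff, inP_iff, join_eq]

theorem manyOneComplete_iff (O C : Lang) : CK.ManyOneComplete O C ↔ ManyOneComplete O C := by
  unfold CK.ManyOneComplete ManyOneComplete CK.ManyOneReducible
  simp only [inNP_iff, inFP_iff]

theorem pIso_iff (O A B : Lang) : TD.IS.PIso O A B ↔ PIso O A B := by
  unfold TD.IS.PIso PIso
  simp only [inFP_iff]

theorem tdp_iff' (O : Lang) (G F K : List Bool → List Bool) :
    TD.TrapdoorPermutations O G F K ↔ TrapdoorPermutations O G F K := by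
  constructor
  · rintro ⟨h1, h2, h3, h4, h5, h6⟩
    exact ⟨(inFP_iff _ _).1 h1, (inFP_iff _ _).1 h2, (inFP_iff _ _).1 h3, h4, h5, h6⟩
  · rintro ⟨h1, h2, h3, h4, h5, h6⟩
    exact ⟨(inFP_iff _ _).2 h1, (inFP_iff _ _).2 h2, (inFP_iff _ _).2 h3, h4, h5, h6⟩

theorem secure_iff' (O : Lang) (G F : List Bool → List Bool) (T : ℕ → ℕ) :
    TD.Secure O G F T ↔ Secure O G F T := by
  unfold TD.Secure Secure
  rw [allC]
  refine forall_congr' fun c => ?_
  rw [Filter.eventually_atTop]
  simp only [run_eq, oCf]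
  rfl

theorem isoOld (pt : List Bool → (n : ℕ) × (k : ℕ) × (Fin n → GaloisField 2 k) ×
      (GaloisField 2 k →ₗ[ZMod 2] ZMod 2)) (hpt : ∀ u, (pt u).1 ≤ u.length) :
    ∃ (O : CK.Lang) (G F K : List Bool → List Bool),
      (∀ u, O (true :: true :: u) = decide ((pt u).2.2.2
        (AFF.mlx (fun b : Fin (pt u).1 → Bool => O (List.ofFn b)) (pt u).2.2.1) = 1)) ∧
      TD.TrapdoorPermutations O G F K ∧
      TD.Secure O G F (fun n => 2 ^ (n / (Nat.log 2 n) ^ 9)) ∧
      (∀ C, CK.TuringComplete O C → CK.ManyOneComplete O C) ∧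
      ∀ C C', CK.TuringComplete O C → CK.TuringComplete O C' → TD.IS.PIso O C C' := by
  obtain ⟨O, V, G, K, H, -, h2, h⟩ := Pool.Agent.TD.TF.main_mlx (fun _ _ _ => false)
    (fun _ => ⟨0, fun _ _ _ _ => rfl⟩) (fun _ => ∅) (fun _ _ hx => absurd hx (by simp)) pt hpt
  exact ⟨O, G, K, H, h2, h.tdp, h.secure, h.collapse, fun C C' hC hC' =>
    h.iso C C' (Or.inl hC.1) (Or.inl hC'.1) (TD.IS.nonuniform_of_turing (hC.2 V h.complete.1))
      (TD.IS.nonuniform_of_turing (hC'.2 V h.complete.1))⟩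

end Pool.Agent.PX
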