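import Mathlib

/-!
# Machines with oracle (MP_5c38ab_lc)

Machines are while-programs that work on finitely many stacks of bits and may ask an oracle about
the content of a stack; every elementary action takes one step.
-/

set_option autoImplicit false

namespace Pool.Agent.PX

/-- Languages (and oracles): sets of bit strings, given by their characteristic functions. -/
abbrev Lang : Type := List Bool → Bool

/-- Programs of an oracle machine with stacks `0, 1, 2, ...` of bits. -/
inductive Cmd : Type
  /-- do nothing -/
  | skip
  /-- push the bit `b` on stack `r` -/
  | push (r : ℕ) (b : Bool)
  /-- remove the top bit of stack `r` (if there is one) -/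
  | pop (r : ℕ)
  /-- first `c`, then `d` -/
  | seq (c d : Cmd)
  /-- `b` if stack `r` is empty, `c` if its top bit is `0`, `d` if its top bit is `1` -/
  | cond (r : ℕ) (b c d : Cmd)
  /-- while stack `r` is not empty do `c` -/
  | loop (r : ℕ) (c : Cmd)
  /-- if the content of stack `r` (top bit first) is in the oracle then `d`, otherwise `c` -/
  | ask (r : ℕ) (c d : Cmd)

/-- A configuration: the commands that are still to be executed, and the contents of the stacks
(top bit first). -/
structure Config : Type where
  todo : List Cmd
  st : ℕ → List Bool

/-- The command `c` is executed with oracle `O` on the stacks `s`; the commands `k` are to be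
executed afterwards. -/
noncomputable def exec (O : Lang) (k : List Cmd) (s : ℕ → List Bool) (c : Cmd) :
    Config :=
  Cmd.rec (motive := fun _ => Config)
    ⟨k, s⟩
    (fun r b => ⟨k, Function.update s r (b :: s r)⟩)
    (fun r => ⟨k, Function.update s r (s r).tail⟩)
    (fun c d _ _ => ⟨c :: d :: k, s⟩)
    (fun r b c d _ _ _ =>
      ⟨(if s r = [] then b else if (s r).head? = some false then c else d) :: k, s⟩)
    (fun r c _ => ⟨if s r = [] then k else c :: Cmd.loop r c :: k, s⟩)
    (fun r c d _ _ => ⟨(if O (s r) = true then d else c) :: k, s⟩)
    c

/-- One step of the computation with oracle `O`. -/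
noncomputable def step (O : Lang) (a : Config) : Config :=
  List.rec (motive := fun _ => Config) a (fun c k _ => exec O k a.st c) a.todo

/-- The initial stacks: `x` on stack `0`, `y` on stack `1`, all other stacks are empty. -/
def init (x y : List Bool) (r : ℕ) : List Bool := if r = 0 then x else if r = 1 then y else []

/-- The configuration after `t` steps of the program `c` with oracle `O` and inputs `x`, `y`. -/
noncomputable def run (O : Lang) (c : Cmd) (x y : List Bool) (t : ℕ) : Config :=
  (step O)^[t] ⟨[c], init x y⟩

/-- The program has halted after at most `t` steps: nothing is left to be done. -/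
def Halts (O : Lang) (c : Cmd) (x y : List Bool) (t : ℕ) : Prop :=
  (run O c x y t).todo = []

/-- The program accepts within `t` steps: it has halted with a `1` on top of stack `0`. -/
def Accepts (O : Lang) (c : Cmd) (x y : List Bool) (t : ℕ) : Prop :=
  (run O c x y t).todo = [] ∧ ((run O c x y t).st 0).head? = some true

end Pool.Agent.PX
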